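import Pool.Agent.X264.WN.Stmt

/-!
# Spaces of Hodge classes on realisations: definitions
-/

set_option autoImplicit false

open CategoryTheory Limits MonoidalCategory
open Pool.Agent.Y112.SR Pool.Agent.X264.DN Pool.Agent.X264.WN

namespace Pool.Agent.X264.HN

universe v u w

variable {C : Type u} [Category.{v} C] [Preadditive C] [MonoidalCategory C] [SymmetricCategory C]
  {K : Type w} [Field K]

/-- The subspaces `A` are stable under the linear maps induced by morphisms. -/
def StableUnderMorphisms {R : SuperRealisation C K} (A : ∀ X : C, Set (Sp R X)) : Prop :=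
  ∀ (X Y : C) (f : X ⟶ Y) (x : Sp R X), x ∈ A X → op R f x ∈ A Y

/-- Products of elements of `A` belong to `A`. -/
def StableUnderProducts {R : SuperRealisation C K} (A : ∀ X : C, Set (Sp R X)) : Prop :=
  ∀ (X Y : C) (x : Sp R X) (y : Sp R Y), x ∈ A X → y ∈ A Y → prod x y ∈ A (X ⊗ Y)

/-- The pairing of the realisation of the dual of `X` with the realisation of `X`, with values in the
realisation of the unit. -/
noncomputable def pair [RightRigidCategory C] {R : SuperRealisation C K} {X : C} (y : Sp R Xᘁ)
    (x : Sp R X) : Sp R (𝟙_ C) := op R (ε_ X Xᘁ) (prod y x)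

/-- Every nonzero element of `A` is detected by the pairing with an element of `A` of the dual. -/
def IsNondegenerate [RightRigidCategory C] {R : SuperRealisation C K}
    (A : ∀ X : C, Set (Sp R X)) : Prop :=
  ∀ (X : C) (x : Sp R X), x ∈ A X → x ≠ 0 → ∃ y ∈ A Xᘁ, pair y x ≠ 0

/-- Multiples of elements of `A` belong to `A`. -/
def StableUnderScalars {R : SuperRealisation C K} (A : ∀ X : C, Set (Sp R X)) : Prop :=
  ∀ (X : C) (x : Sp R X) (a : K), x ∈ A X → a • x ∈ A X

/-- Hodge classes on the realisations: functorial and multiplicative subsets, stable under scalars,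
which contain the class of the unit and with nondegenerate pairings. -/
structure HodgeClasses [RightRigidCategory C] (R : SuperRealisation C K) where
  A : ∀ X : C, Set (Sp R X)
  unit : unitClass R ∈ A (𝟙_ C)
  map : StableUnderMorphisms A
  mul : StableUnderProducts A
  smul : StableUnderScalars A
  nondeg : IsNondegenerate A

/-- The Hodge conjecture for `X`: every Hodge class is the class of a morphism from the unit to
`X`. -/
def AllAlgebraic [RightRigidCategory C] {R : SuperRealisation C K} (T : HodgeClasses R) (X : C) :
    Prop := ∀ x ∈ T.A X, ∃ f : 𝟙_ C ⟶ X, cl R f = x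

/-- The tensor powers of an element of the realisation. -/
noncomputable def pw {R : SuperRealisation C K} {X : C} (x : Sp R X) :
    ∀ n : ℕ, Sp R (Pool.Agent.Y112.KD.tp X n)
  | 0 => unitClass R
  | n + 1 => prod (pw x n) x

end Pool.Agent.X264.HN
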