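import Pool.Agent.X264.HN.Defs
import Pool.Agent.X264.WN.Main

/-!
# Hodge classes and tensor powers
-/

set_option autoImplicit false
set_option linter.unusedSectionVars false
set_option linter.unusedSimpArgs false
set_option backward.isDefEq.respectTransparency false
set_option backward.defeqAttrib.useBackward true

open CategoryTheory Limits MonoidalCategory
open Pool.Agent.Y112.SR Pool.Agent.Y112.KD Pool.Agent.X264.DN Pool.Agent.X264.WN

namespace Pool.Agent.X264.HN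

universe v u w

open Functor.LaxMonoidal Functor.OplaxMonoidal

variable {C : Type u} [Category.{v} C] [Preadditive C] [MonoidalCategory C] [SymmetricCategory C]
  {K : Type w} [Field K] [CharZero K] {R : SuperRealisation C K}

lemma op_comp {X Y Z : C} (f : X ⟶ Y) (g : Y ⟶ Z) (x : Sp R X) :
    op R (f ≫ g) x = op R g (op R f x) := by
  rw [op, Functor.map_comp]
  rfl

lemma op_id {X : C} (x : Sp R X) : op R (𝟙 X) x = x := by
  rw [op, CategoryTheory.Functor.map_id]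
  rfl

lemma op_whiskerRight {X X' Y : C} (f : X ⟶ X') (x : Sp R X) (y : Sp R Y) :
    op R (f ▷ Y) (prod x y) = prod (op R f x) y := by
  have h := LinearMap.congr_fun (congrArg ModuleCat.Hom.hom (μ_natural_left R.H f Y))
    (x ⊗ₜ[K] y : TensorProduct K (R.H.obj X) (R.H.obj Y))
  exact h.symm

lemma op_whiskerLeft {X Y Y' : C} (f : Y ⟶ Y') (x : Sp R X) (y : Sp R Y) :
    op R (X ◁ f) (prod x y) = prod x (op R f y) := by
  have h := LinearMap.congr_fun (congrArg ModuleCat.Hom.hom (μ_natural_right R.H X f))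
    (x ⊗ₜ[K] y : TensorProduct K (R.H.obj X) (R.H.obj Y))
  exact h.symm

lemma op_assoc {X Y Z : C} (x : Sp R X) (y : Sp R Y) (z : Sp R Z) :
    op R (α_ X Y Z).hom (prod (prod x y) z) = prod x (prod y z) := by
  have h := LinearMap.congr_fun (congrArg ModuleCat.Hom.hom
      (Functor.LaxMonoidal.associativity (F := R.H) X Y Z))
      ((x ⊗ₜ[K] y) ⊗ₜ[K] z : TensorProduct K (TensorProduct K (R.H.obj X)
        (R.H.obj Y)) (R.H.obj Z))
  exact h

lemma op_assoc_inv {X Y Z : C} (x : Sp R X) (y : Sp R Y) (z : Sp R Z) :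
    op R (α_ X Y Z).inv (prod x (prod y z)) = prod (prod x y) z := by
  rw [← op_assoc, ← op_comp, Iso.hom_inv_id, op_id]

lemma op_left {X : C} (x : Sp R X) : op R (λ_ X).hom (prod (unitClass R) x) = x := by
  have h := LinearMap.congr_fun (congrArg ModuleCat.Hom.hom
      (Functor.LaxMonoidal.left_unitality (F := R.H) X))
      ((1 : K) ⊗ₜ[K] x : TensorProduct K K (R.H.obj X))
  have h1 : (λ_ (R.H.obj X)).hom.hom ((1 : K) ⊗ₜ[K] x : TensorProduct K K (R.H.obj X)) = x := by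
    change (1 : K) • (x : R.H.obj X) = x
    rw [one_smul]
  rw [h1] at h
  exact h.symm

lemma op_right {X : C} (x : Sp R X) : op R (ρ_ X).hom (prod x (unitClass R)) = x := by
  have h := LinearMap.congr_fun (congrArg ModuleCat.Hom.hom
      (Functor.LaxMonoidal.right_unitality (F := R.H) X))
      (x ⊗ₜ[K] (1 : K) : TensorProduct K (R.H.obj X) K)
  have h1 : (ρ_ (R.H.obj X)).hom.hom (x ⊗ₜ[K] (1 : K) : TensorProduct K (R.H.obj X) K) = x := by
    change (1 : K) • (x : R.H.obj X) = x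
    rw [one_smul]
  rw [h1] at h
  exact h.symm

lemma op_left_inv {X : C} (x : Sp R X) : op R (λ_ X).inv x = prod (unitClass R) x := by
  conv_lhs => rw [← op_left x]
  rw [← op_comp, Iso.hom_inv_id, op_id]

lemma op_right_inv {X : C} (x : Sp R X) : op R (ρ_ X).inv x = prod x (unitClass R) := by
  conv_lhs => rw [← op_right x]
  rw [← op_comp, Iso.hom_inv_id, op_id]

lemma cl_comp {X Y : C} (f : 𝟙_ C ⟶ X) (g : X ⟶ Y) : cl R (f ≫ g) = op R g (cl R f) :=
  op_comp _ _ _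

/-- Products of classes of morphisms are classes of morphisms. -/
lemma exists_prod {X Y : C} {x : Sp R X} {y : Sp R Y} (hx : ∃ f : 𝟙_ C ⟶ X, cl R f = x)
    (hy : ∃ g : 𝟙_ C ⟶ Y, cl R g = y) : ∃ h : 𝟙_ C ⟶ X ⊗ Y, cl R h = prod x y := by
  obtain ⟨f, rfl⟩ := hx
  obtain ⟨g, rfl⟩ := hy
  refine ⟨(λ_ (𝟙_ C)).inv ≫ f ▷ (𝟙_ C) ≫ X ◁ g, ?_⟩
  rw [cl, op_comp, op_comp, op_left_inv, op_whiskerRight, op_whiskerLeft]
  rfl

/-- The product of tensor powers. -/
noncomputable def tpAdd (X : C) (a : ℕ) : ∀ b : ℕ, (tp X a ⊗ tp X b ≅ tp X (a + b))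
  | 0 => ρ_ (tp X a)
  | b + 1 => (α_ _ _ _).symm ≪≫ whiskerRightIso (tpAdd X a b) X

lemma op_tpAdd {X : C} (x : Sp R X) (a b : ℕ) :
    op R (tpAdd X a b).hom (prod (pw x a) (pw x b)) = pw x (a + b) := by
  induction b with
  | zero => exact op_right _
  | succ b ih =>
    change op R ((α_ (tp X a) (tp X b) X).inv ≫ (tpAdd X a b).hom ▷ X)
      (prod (pw x a) (prod (pw x b) x)) = prod (pw x (a + b)) x
    rw [op_comp, op_assoc_inv, op_whiskerRight, ih]

lemma op_tpAdd_inv {X : C} (x : Sp R X) (a b : ℕ) :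
    op R (tpAdd X a b).inv (pw x (a + b)) = prod (pw x a) (pw x b) := by
  rw [← op_tpAdd, ← op_comp, Iso.hom_inv_id, op_id]

/-- The tensor power `x ^ n` is algebraic. -/
def PowAlg {X : C} (x : Sp R X) (n : ℕ) : Prop := ∃ f : 𝟙_ C ⟶ tp X n, cl R f = pw x n

/-- Some morphism from `X ^ n` to the unit maps `x ^ n` to the class of the unit. -/
def PowFun {X : C} (x : Sp R X) (n : ℕ) : Prop :=
  ∃ φ : tp X n ⟶ 𝟙_ C, op R φ (pw x n) = unitClass R

lemma powAlg_zero {X : C} (x : Sp R X) : PowAlg x 0 :=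
  ⟨𝟙 _, by rw [cl, op_id]; rfl⟩

lemma PowAlg.add {X : C} {x : Sp R X} {a b : ℕ} (ha : PowAlg x a) (hb : PowAlg x b) :
    PowAlg x (a + b) := by
  obtain ⟨f, hf⟩ := exists_prod ha hb
  exact ⟨f ≫ (tpAdd X a b).hom, by rw [cl_comp, hf, op_tpAdd]⟩

lemma PowAlg.mul {X : C} {x : Sp R X} {a : ℕ} (ha : PowAlg x a) (k : ℕ) : PowAlg x (a * k) := by
  induction k with
  | zero => exact powAlg_zero x
  | succ k ih => exact ih.add ha

lemma powFun_zero {X : C} (x : Sp R X) : PowFun x 0 :=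
  ⟨𝟙 _, by rw [op_id]; rfl⟩

lemma PowFun.add {X : C} {x : Sp R X} {a b : ℕ} (ha : PowFun x a) (hb : PowFun x b) :
    PowFun x (a + b) := by
  obtain ⟨f, hf⟩ := ha
  obtain ⟨g, hg⟩ := hb
  refine ⟨(tpAdd X a b).inv ≫ f ▷ tp X b ≫ (λ_ (tp X b)).hom ≫ g, ?_⟩
  rw [op_comp, op_comp, op_comp, op_tpAdd_inv, op_whiskerRight, hf, op_left, hg]

lemma PowFun.mul {X : C} {x : Sp R X} {a : ℕ} (ha : PowFun x a) (k : ℕ) : PowFun x (a * k) := by
  induction k with
  | zero => exact powFun_zero x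
  | succ k ih => exact ih.add ha

/-- Two consecutive exponents. -/
lemma alg_of_consecutive {X : C} {x : Sp R X} {m : ℕ} (h1 : PowAlg x (m + 1)) (h2 : PowFun x m) :
    ∃ f : 𝟙_ C ⟶ X, cl R f = x := by
  obtain ⟨f, hf⟩ := h1
  obtain ⟨φ, hφ⟩ := h2
  refine ⟨f ≫ φ ▷ X ≫ (λ_ X).hom, ?_⟩
  rw [cl_comp, hf, op_comp]
  change op R (λ_ X).hom (op R (φ ▷ X) (prod (pw x m) x)) = x
  rw [op_whiskerRight, hφ, op_left]

lemma exists_bezout {n m : ℕ} (hn : 0 < n) (hnm : Nat.Coprime n m) :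
    ∃ a b, n * a = m * b + 1 := by
  rcases lt_trichotomy m 1 with h | rfl | h
  · have hm : m = 0 := by omega
    subst hm
    have h1 : n = 1 := by simpa using hnm
    exact ⟨1, 0, by omega⟩
  · exact ⟨1, n - 1, by omega⟩
  · obtain ⟨a, ha⟩ := Nat.exists_mul_mod_eq_one_of_coprime hnm h
    exact ⟨a, n * a / m, by rw [← ha.2]; exact (Nat.div_add_mod (n * a) m).symm⟩

lemma alg_of_coprime {X : C} {x : Sp R X} {n m : ℕ} (hn : 0 < n) (hnm : Nat.Coprime n m)
    (h1 : PowAlg x n) (h2 : PowFun x m) : ∃ f : 𝟙_ C ⟶ X, cl R f = x := by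
  obtain ⟨a, b, hab⟩ := exists_bezout hn hnm
  have h3 := h1.mul a
  rw [hab] at h3
  exact alg_of_consecutive h3 (h2.mul b)

section Rigid

variable [RightRigidCategory C] (T : HodgeClasses R)

lemma pw_mem {X : C} {x : Sp R X} (hx : x ∈ T.A X) (n : ℕ) : pw x n ∈ T.A (tp X n) := by
  induction n with
  | zero => exact T.unit
  | succ n ih => exact T.mul _ _ _ _ ih hx

lemma unitClass_ne : unitClass R ≠ 0 := by
  intro h
  have h1 : (η R.H).hom ((ε R.H).hom (1 : K)) = (1 : K) :=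
    LinearMap.congr_fun (congrArg ModuleCat.Hom.hom (Functor.Monoidal.ε_η R.H)) (1 : K)
  have h2 : (ε R.H).hom (1 : K) = 0 := h
  rw [h2, map_zero] at h1
  exact zero_ne_one h1

lemma prod_ne {X Y : C} {x : Sp R X} {y : Sp R Y} (hx : x ≠ 0) (hy : y ≠ 0) : prod x y ≠ 0 := by
  intro h
  have h1 : (x ⊗ₜ[K] y : TensorProduct K (Sp R X) (Sp R Y)) = 0 :=
    (mulMap_bijective X Y).1 (by rw [map_zero]; exact h)
  exact Pool.Agent.X264.KF.tmul_ne hx hy h1

lemma pw_ne {X : C} {x : Sp R X} (hx : x ≠ 0) (n : ℕ) : pw x n ≠ 0 := by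
  induction n with
  | zero => exact unitClass_ne
  | succ n ih => exact prod_ne ih hx

/-- Normalised dual elements. -/
lemma exists_dual {X : C} {x : Sp R X} (hx : x ∈ T.A X) (h0 : x ≠ 0) :
    ∃ y ∈ T.A Xᘁ, pair y x = unitClass R := by
  obtain ⟨y, hy, h1⟩ := T.nondeg X x hx h0
  obtain ⟨a, ha⟩ := unit_span (pair y x)
  have ha0 : a ≠ 0 := by
    rintro rfl
    exact h1 (by rw [ha, zero_smul])
  refine ⟨a⁻¹ • y, T.smul _ _ _ hy, ?_⟩
  have h2 : pair (a⁻¹ • y) x = a⁻¹ • pair y x := by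
    rw [pair, smul_prod, map_smul]
    rfl
  rw [h2, ha, smul_smul, inv_mul_cancel₀ ha0, one_smul]

/-- If the Hodge conjecture holds for the endomorphisms of `X`, then it holds for `X` unless no
nonzero Hodge class of `X` is algebraic. -/
theorem dichotomy {X : C} (h : AllAlgebraic T (X ⊗ Xᘁ)) (h0 : ∃ f : 𝟙_ C ⟶ X, cl R f ≠ 0) :
    AllAlgebraic T X := by
  intro x hx
  obtain ⟨f, hf⟩ := h0
  have hfm : cl R f ∈ T.A X := T.map _ _ f _ T.unit
  obtain ⟨y, hy, hyf⟩ := exists_dual T hfm hf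
  obtain ⟨g, hg⟩ := exists_prod (h _ (T.mul _ _ _ _ hx hy)) (y := cl R f) ⟨f, rfl⟩
  refine ⟨g ≫ (α_ X Xᘁ X).hom ≫ X ◁ ε_ X Xᘁ ≫ (ρ_ X).hom, ?_⟩
  rw [cl_comp, hg, op_comp, op_comp, op_assoc, op_whiskerLeft]
  change op R (ρ_ X).hom (prod x (pair y (cl R f))) = x
  rw [hyf, op_right]

/-- Morphisms to the unit from classes of the dual. -/
lemma exists_fun {X : C} {x : Sp R X} {y : Sp R Xᘁ} (hy : ∃ g : 𝟙_ C ⟶ Xᘁ, cl R g = y)
    (h : pair y x = unitClass R) : ∃ φ : X ⟶ 𝟙_ C, op R φ x = unitClass R := by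
  obtain ⟨g, rfl⟩ := hy
  refine ⟨(λ_ X).inv ≫ g ▷ X ≫ ε_ X Xᘁ, ?_⟩
  rw [op_comp, op_comp, op_left_inv, op_whiskerRight]
  exact h

lemma powFun_of {X : C} {x : Sp R X} (hx : x ∈ T.A X) (h0 : x ≠ 0) {m : ℕ}
    (h : AllAlgebraic T (tp X m)ᘁ) : PowFun x m := by
  obtain ⟨y, hy, hyx⟩ := exists_dual T (pw_mem T hx m) (pw_ne h0 m)
  exact exists_fun (h y hy) hyx

/-- Coprime powers. -/
theorem coprime_powers {X : C} {n m : ℕ} (hn : 0 < n) (hnm : Nat.Coprime n m)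
    (h1 : AllAlgebraic T (tp X n)) (h2 : AllAlgebraic T (tp X m)ᘁ) : AllAlgebraic T X := by
  intro x hx
  by_cases h0 : x = 0
  · exact ⟨0, by rw [h0, cl, op, Functor.map_zero]; rfl⟩
  · exact alg_of_coprime hn hnm (h1 _ (pw_mem T hx n)) (powFun_of T hx h0 h2)

/-- One Hodge class with algebraic powers. -/
theorem coprime_class {X : C} {x : Sp R X} (h0 : x ≠ 0) {n m : ℕ} (hn : 0 < n)
    (hnm : Nat.Coprime n m) (h1 : PowAlg x n) (h2 : PowFun x m)
    (h : AllAlgebraic T (X ⊗ Xᘁ)) : AllAlgebraic T X := by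
  obtain ⟨f, hf⟩ := alg_of_coprime hn hnm h1 h2
  exact dichotomy T h ⟨f, by rw [hf]; exact h0⟩

end Rigid

end Pool.Agent.X264.HN
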