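import Pool.Agent.X264.HN.Defs

/-!
# Two notions of algebraic classes: definitions
-/

set_option autoImplicit false

open CategoryTheory Limits MonoidalCategory
open Pool.Agent.Y112.SR Pool.Agent.X264.DN Pool.Agent.X264.WN

namespace Pool.Agent.X264.HN

universe v u w

variable {C : Type u} [Category.{v} C] [Preadditive C] [MonoidalCategory C] [SymmetricCategory C]
  {K : Type w} [Field K]

/-- Sums of elements of `A` belong to `A`. -/
def StableUnderSums {R : SuperRealisation C K} (A : ∀ X : C, Set (Sp R X)) : Prop :=
  ∀ (X : C) (x y : Sp R X), x ∈ A X → y ∈ A X → x + y ∈ A X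

/-- The elements of `A` are even. -/
def AllEven {R : SuperRealisation C K} (A : ∀ X : C, Set (Sp R X)) : Prop :=
  ∀ (X : C) (x : Sp R X), x ∈ A X → IsEven x

/-- A notion of algebraic classes on the realisations: subspaces of even elements which are
compatible with morphisms and products and which contain the class of the unit. -/
structure ClassTheory (R : SuperRealisation C K) where
  A : ∀ X : C, Set (Sp R X)
  unit : unitClass R ∈ A (𝟙_ C)
  map : StableUnderMorphisms A
  mul : StableUnderProducts A
  add : StableUnderSums A
  smul : StableUnderScalars A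
  even : AllEven A

/-- For the object `X`, all classes in the sense of `S` are classes in the sense of `T`. -/
def Spreads {R : SuperRealisation C K} (S T : ClassTheory R) (X : C) : Prop := S.A X ⊆ T.A X

/-- Some classes of `X` and of its dual, in the sense of `S`, have nonzero pairing. -/
def HasPair [RightRigidCategory C] {R : SuperRealisation C K} (S : ClassTheory R) (X : C) : Prop :=
  ∃ a ∈ S.A X, ∃ y ∈ S.A Xᘁ, pair y a ≠ 0

/-- Some class of `X`, in the sense of both `S` and `T`, has nonzero pairing with a class of the dual
in the sense of `S`. -/
def HasCommonPair [RightRigidCategory C] {R : SuperRealisation C K} (S T : ClassTheory R) (X : C) :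
    Prop :=
  ∃ a ∈ S.A X, a ∈ T.A X ∧ ∃ y ∈ S.A Xᘁ, pair y a ≠ 0

end Pool.Agent.X264.HN
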