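import Pool.Agent.X264.HN.Main
import Pool.Agent.X264.HN.TwoDefs

/-!
# Two notions of algebraic classes
-/

set_option autoImplicit false
set_option linter.unusedSectionVars false
set_option linter.unusedSimpArgs false
set_option backward.isDefEq.respectTransparency false
set_option backward.defeqAttrib.useBackward true

open CategoryTheory Limits MonoidalCategory
open Pool.Agent.Y112.SR Pool.Agent.Y112.KD Pool.Agent.X264.DN Pool.Agent.X264.WN

namespace Pool.Agent.X264.HN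

universe v u w

open Functor.LaxMonoidal Functor.OplaxMonoidal

variable {C : Type u} [Category.{v} C] [Preadditive C] [MonoidalCategory C] [SymmetricCategory C]
  {K : Type w} [Field K] [CharZero K] {R : SuperRealisation C K}

lemma op_braid {X Y : C} {x : Sp R X} (hx : IsEven x) (y : Sp R Y) :
    op R (β_ X Y).hom (prod x y) = prod y x := by
  have h := LinearMap.congr_fun (congrArg ModuleCat.Hom.hom (R.symm X Y))
    (x ⊗ₜ[K] y : TensorProduct K (R.H.obj X) (R.H.obj Y))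
  have h1 : (2 : K) • op R (β_ X Y).hom (prod x y) =
      mulMap R Y X (TensorProduct.comm K (Sp R X) (Sp R Y)
        (((x ⊗ₜ[K] y + (pr X x) ⊗ₜ[K] y + x ⊗ₜ[K] (pr Y y)) -
            (pr X x) ⊗ₜ[K] (pr Y y) :
              TensorProduct K (Sp R X) (Sp R Y)))) := h
  have h2 : (((x ⊗ₜ[K] y + (pr X x) ⊗ₜ[K] y + x ⊗ₜ[K] (pr Y y)) -
            (pr X x) ⊗ₜ[K] (pr Y y) : TensorProduct K (Sp R X) (Sp R Y))) =
      (2 : K) • (x ⊗ₜ[K] y) := by
    rw [isEven_iff.1 hx]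
    module
  rw [h2, map_smul, map_smul] at h1
  exact smul_right_injective _ (two_ne_zero (α := K)) h1

lemma pw_even {X : C} {x : Sp R X} (hx : IsEven x) (n : ℕ) : IsEven (pw x n) := by
  induction n with
  | zero => exact unit_even
  | succ n ih => exact ih.prod_even hx

variable [RightRigidCategory C]

/-- The pairing of the tensor powers of the dual with the tensor powers. -/
noncomputable def con (X : C) : ∀ n : ℕ, (tp Xᘁ n ⊗ tp X n ⟶ 𝟙_ C)
  | 0 => (λ_ (𝟙_ C)).hom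
  | n + 1 => (α_ (tp Xᘁ n) Xᘁ (tp X n ⊗ X)).hom ≫ tp Xᘁ n ◁ (α_ Xᘁ (tp X n) X).inv ≫
      tp Xᘁ n ◁ ((β_ Xᘁ (tp X n)).hom ▷ X) ≫ tp Xᘁ n ◁ (α_ (tp X n) Xᘁ X).hom ≫
      (α_ (tp Xᘁ n) (tp X n) (Xᘁ ⊗ X)).inv ≫ con X n ▷ (Xᘁ ⊗ X) ≫ (λ_ (Xᘁ ⊗ X)).hom ≫ ε_ X Xᘁ

lemma op_con {X : C} {x : Sp R X} {y : Sp R Xᘁ} (hy : IsEven y) (h : pair y x = unitClass R)
    (n : ℕ) : op R (con X n) (prod (pw y n) (pw x n)) = unitClass R := by
  induction n with
  | zero => exact op_left _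
  | succ n ih =>
    change op R (con X (n + 1)) (prod (prod (pw y n) y) (prod (pw x n) x)) = unitClass R
    rw [con, op_comp, op_assoc, op_comp, op_whiskerLeft, op_assoc_inv, op_comp, op_whiskerLeft,
      op_whiskerRight, op_braid hy, op_comp, op_whiskerLeft, op_assoc, op_comp, op_assoc_inv,
      op_comp, op_whiskerRight, ih, op_comp, op_left]
    exact h

/-- Normalised pairs. -/
lemma exists_norm (S : ClassTheory R) {X : C} {a : Sp R X} {y : Sp R Xᘁ} (hy : y ∈ S.A Xᘁ)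
    (h : pair y a ≠ 0) : ∃ y' ∈ S.A Xᘁ, pair y' a = unitClass R ∧ ∀ m,
      (∀ T : ClassTheory R, pw y m ∈ T.A (tp Xᘁ m) → pw y' m ∈ T.A (tp Xᘁ m)) := by
  obtain ⟨c, hc⟩ := unit_span (pair y a)
  have hc0 : c ≠ 0 := by
    rintro rfl
    exact h (by rw [hc, zero_smul])
  refine ⟨c⁻¹ • y, S.smul _ _ _ hy, ?_, ?_⟩
  · have h2 : pair (c⁻¹ • y) a = c⁻¹ • pair y a := by
      rw [pair, smul_prod, map_smul]
      rfl
    rw [h2, hc, smul_smul, inv_mul_cancel₀ hc0, one_smul]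
  · intro m T hT
    have h3 : ∀ m : ℕ, pw (c⁻¹ • y) m = (c⁻¹) ^ m • pw y m := by
      intro m
      induction m with
      | zero =>
        rw [pow_zero, one_smul]
        rfl
      | succ m ih =>
        change prod (pw (c⁻¹ • y) m) (c⁻¹ • y) = (c⁻¹) ^ (m + 1) • prod (pw y m) y
        rw [ih, smul_prod, prod_smul, smul_smul, pow_succ]
    rw [h3]
    exact T.smul _ _ _ hT

/-- Endomorphisms. -/
theorem spreads_of_end (S T : ClassTheory R) {X : C} (h : Spreads S T (X ⊗ Xᘁ))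
    (h0 : HasCommonPair S T X) : Spreads S T X := by
  intro x hx
  obtain ⟨a, ha, haT, y, hy, hya⟩ := h0
  obtain ⟨y', hy', hya', -⟩ := exists_norm S hy hya
  have h1 : prod (prod x y') a ∈ T.A ((X ⊗ Xᘁ) ⊗ X) :=
    T.mul _ _ _ _ (h (S.mul _ _ _ _ hx hy')) haT
  have h2 := T.map _ _ ((α_ X Xᘁ X).hom ≫ X ◁ ε_ X Xᘁ ≫ (ρ_ X).hom) _ h1
  rw [op_comp, op_assoc, op_comp, op_whiskerLeft] at h2
  change op R (ρ_ X).hom (prod x (pair y' a)) ∈ T.A X at h2
  rwa [hya', op_right] at h2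

lemma pw_mem_theory (S : ClassTheory R) {X : C} {x : Sp R X} (hx : x ∈ S.A X) (n : ℕ) :
    pw x n ∈ S.A (tp X n) := by
  induction n with
  | zero => exact S.unit
  | succ n ih => exact S.mul _ _ _ _ ih hx

lemma pw_mul_mem (T : ClassTheory R) {X : C} {x : Sp R X} {n : ℕ} (hx : pw x n ∈ T.A (tp X n))
    (k : ℕ) : pw x (n * k) ∈ T.A (tp X (n * k)) := by
  induction k with
  | zero => exact T.unit
  | succ k ih =>
    have h1 := T.map _ _ (tpAdd X (n * k) n).hom _ (T.mul _ _ _ _ ih hx)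
    rw [op_tpAdd] at h1
    exact h1

/-- Elements with coprime powers. -/
lemma mem_of_coprime (T : ClassTheory R) {X : C} {x : Sp R X} {y : Sp R Xᘁ} (hy : IsEven y)
    (h : pair y x = unitClass R) {n m : ℕ} (hn : 0 < n) (hnm : Nat.Coprime n m)
    (h1 : pw x n ∈ T.A (tp X n)) (h2 : pw y m ∈ T.A (tp Xᘁ m)) : x ∈ T.A X := by
  obtain ⟨a, b, hab⟩ := exists_bezout hn hnm
  have h3 := pw_mul_mem T h1 a
  rw [hab] at h3
  have h4 := pw_mul_mem T h2 b
  have h5 := T.mul _ _ _ _ h4 h3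
  have h6 := T.map _ _ ((α_ _ _ _).inv ≫ con X (m * b) ▷ X ≫ (λ_ X).hom) _ h5
  rw [op_comp] at h6
  change op R (con X (m * b) ▷ X ≫ (λ_ X).hom) (op R (α_ _ _ _).inv
    (prod (pw y (m * b)) (prod (pw x (m * b)) x))) ∈ T.A X at h6
  rwa [op_assoc_inv, op_comp, op_whiskerRight, op_con hy h, op_left] at h6

/-- Coprime powers. -/
theorem spreads_of_coprime (S T : ClassTheory R) {X : C} (h0 : HasPair S X) {n m : ℕ}
    (hn : 0 < n) (hnm : Nat.Coprime n m) (h1 : Spreads S T (tp X n))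
    (h2 : Spreads S T (tp Xᘁ m)) : Spreads S T X := by
  have key : ∀ x ∈ S.A X, (∃ y ∈ S.A Xᘁ, pair y x ≠ 0) → x ∈ T.A X := by
    rintro x hx ⟨y, hy, hyx⟩
    obtain ⟨y', hy', hyx', -⟩ := exists_norm S hy hyx
    exact mem_of_coprime T (S.even _ _ hy') hyx' hn hnm (h1 (pw_mem_theory S hx n))
      (h2 (pw_mem_theory S hy' m))
  intro x hx
  obtain ⟨a, ha, y, hy, hya⟩ := h0
  by_cases h3 : pair y x = 0
  · have h4 : x + a ∈ T.A X := by
      apply key _ (S.add _ _ _ hx ha)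
      refine ⟨y, hy, ?_⟩
      have h5 : pair y (x + a) = pair y x + pair y a := by
        rw [pair, prod_add, map_add]
        rfl
      rw [h5, h3, zero_add]
      exact hya
    have h5 := T.add _ _ _ h4 (T.smul _ _ (-1) (key a ha ⟨y, hy, hya⟩))
    rwa [neg_one_smul, add_neg_cancel_right] at h5
  · exact key x hx ⟨y, hy, h3⟩

/-- Endomorphisms and coprime powers of one pair of classes. -/
theorem spreads_of_pair (S T : ClassTheory R) {X : C} (h : Spreads S T (X ⊗ Xᘁ)) {a : Sp R X}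
    {y : Sp R Xᘁ} (ha : a ∈ S.A X) (hy : y ∈ S.A Xᘁ) (hya : pair y a ≠ 0) {n m : ℕ} (hn : 0 < n)
    (hnm : Nat.Coprime n m) (h1 : pw a n ∈ T.A (tp X n)) (h2 : pw y m ∈ T.A (tp Xᘁ m)) :
    Spreads S T X := by
  obtain ⟨y', hy', hya', h3⟩ := exists_norm S hy hya
  have h4 : a ∈ T.A X := mem_of_coprime T (S.even _ _ hy') hya' hn hnm h1 (h3 m T h2)
  exact spreads_of_end S T h ⟨a, ha, h4, y, hy, hya⟩

end Pool.Agent.X264.HN
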